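import Pool.Agent.TH421.AC.Main

/-!
# Limit laws of eigenfunctions are absolutely continuous away from zero (MP_a52643_an)

`Ω ⊆ ℂ` is the domain of isothermal coordinates of a Riemannian surface with metric `ρ |dz|²`,
so `dvol = ρ dx dy` and `Δ_g = ρ⁻¹ (∂x² + ∂y²)`.
-/

set_option autoImplicit false
open MeasureTheory Filter Topology Complex
open scoped ContDiff ENNReal Manifold

namespace Pool.Agent.Results.MP_a52643_an.AbsoluteContinuity

noncomputable section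

/-- the Laplacian `∂x² + ∂y²` -/
def lapl (f : ℂ → ℝ) (z : ℂ) : ℝ :=
  fderiv ℝ (fun w => fderiv ℝ f w 1) z 1 + fderiv ℝ (fun w => fderiv ℝ f w I) z I

/-- the sequence `u` is locally bounded in `L²` on `Ω` -/
def LocL2 (Ω : Set ℂ) (u : ℕ → ℂ → ℝ) : Prop :=
  ∀ K : Set ℂ, IsCompact K → K ⊆ Ω → ∃ C : ℝ, ∀ᶠ n in atTop, ∫ z in K, u n z ^ 2 ≤ C

/-- nonnegative test functions: smooth, with compact support contained in `Ω` -/
def Test (Ω : Set ℂ) (φ : ℂ → ℝ) : Prop :=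
  ContDiff ℝ ∞ φ ∧ HasCompactSupport φ ∧ tsupport φ ⊆ Ω ∧ ∀ z, 0 ≤ φ z

/-- `ν` is a vague limit, along a subsequence, of the laws `g ↦ ∫ φ g(u_n) dvol` -/
def IsLimitLaw (φ ρ : ℂ → ℝ) (u : ℕ → ℂ → ℝ) (ν : Measure ℝ) : Prop :=
  ∃ σ : ℕ → ℕ, StrictMono σ ∧ ∀ g : ℝ → ℝ, Continuous g → HasCompactSupport g →
    Tendsto (fun n => ∫ z, φ z * (g (u (σ n) z) * ρ z)) atTop (𝓝 (∫ x, g x ∂ν))

open Pool.Agent.TH421.AC Pool.Agent.TH421.DF Pool.Agent.TH294.RS Pool.Agent.TH294.RG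
open Pool.Agent.W745.RW

lemma exists_cutR {U K : Set ℝ} (hU : IsOpen U) (hK : IsCompact K) (hKU : K ⊆ U) :
    ∃ g : ℝ → ℝ, ContDiff ℝ ∞ g ∧ HasCompactSupport g ∧ tsupport g ⊆ U ∧
      (∀ x ∈ K, g x = 1) ∧ (∀ x, 0 ≤ g x) ∧ (∀ x, g x ≤ 1) := by
  obtain ⟨δ, hδ, hδB⟩ := hK.exists_cthickening_subset_open hU hKU
  obtain ⟨f, hf1, hf2, hf3⟩ := exists_contMDiff_support_eq_eq_one_iff (𝓘(ℝ, ℝ))
    (Metric.isOpen_thickening (δ := δ) (E := K)) hK.isClosed
    (Metric.self_subset_thickening hδ K)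
  have hs : tsupport f ⊆ Metric.cthickening δ K := by
    apply closure_minimal _ Metric.isClosed_cthickening
    rw [hf3.1]
    exact Metric.thickening_subset_cthickening _ _
  refine ⟨f, hf1.contDiff, ?_, hs.trans hδB, fun x hx => ?_, fun x => ?_, fun x => ?_⟩
  · exact (hK.cthickening (r := δ)).of_isClosed_subset (isClosed_tsupport f) hs
  · exact (hf3.2 x).1 hx
  · exact (hf2 ⟨x, rfl⟩).1
  · exact (hf2 ⟨x, rfl⟩).2

lemma rdd {Ω : Set ℂ} (hΩ : IsOpen Ω) {h : ℕ → ℝ} {u : ℕ → ℂ → ℝ}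
    (hu : ∀ n, ContDiffOn ℝ ∞ (u n) Ω) (v : ℂ) (n : ℕ) {z : ℂ} (hz : z ∈ Ω) :
    rd h v (rd h v u) n z = h n ^ 2 * fderiv ℝ (fun w => fderiv ℝ (u n) w v) z v := by
  show h n * fderiv ℝ (fun w => h n * fderiv ℝ (u n) w v) z v = _
  rw [fderiv_const_mul (rdA hΩ (rsd hΩ (hu n) v) hz)]
  simp only [smul_apply, smul_eq_mul]; ring

/-- **Limit laws of eigenfunctions are absolutely continuous away from zero.** -/
theorem result : ∀ (Ω : Set ℂ) (ρ : ℂ → ℝ) (lam : ℕ → ℝ) (u : ℕ → ℂ → ℝ), IsOpen Ω →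
    ContDiffOn ℝ ∞ ρ Ω → (∀ z ∈ Ω, 0 < ρ z) → Tendsto lam atTop atTop →
    (∀ n, ContDiffOn ℝ ∞ (u n) Ω) → (∀ n, ∀ z ∈ Ω, lapl (u n) z + lam n * (ρ z * u n z) = 0) →
    LocL2 Ω u → ∀ φ : ℂ → ℝ, Test Ω φ → ∃ C : ℝ, ∀ ν : Measure ℝ, IsFiniteMeasure ν →
    IsLimitLaw φ ρ u ν →
      (∀ (K : Set ℝ) (e : ℝ), IsCompact K → 0 < e → volume K < ENNReal.ofReal (e ^ 6) →
        ∫ x in K, |x| ∂ν ≤ C * e) ∧ ν.restrict {0}ᶜ ≪ volume := by
  intro Ω ρ lam u hΩ hρ hρ0 hlam hu he hL φ hφ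
  obtain ⟨N0, hN0⟩ := (eventually_atTop.1 (hlam.eventually_ge_atTop 1))
  obtain ⟨l, hl⟩ : ∃ l : ℕ → ℝ, ∀ n, l n = lam (n + N0) := ⟨_, fun _ => rfl⟩
  have l1 : ∀ n, 1 ≤ l n := fun n => by rw [hl]; exact hN0 _ (Nat.le_add_left _ _)
  have ll : Tendsto l atTop atTop :=
    (hlam.comp (tendsto_add_atTop_nat N0)).congr fun n => (hl n).symm
  obtain ⟨h, hh⟩ : ∃ h : ℕ → ℝ, ∀ n, h n = (√(l n))⁻¹ := ⟨_, fun _ => rfl⟩
  have hp : ∀ n, 0 < h n := fun n => by
    rw [hh]; exact inv_pos.2 (Real.sqrt_pos.2 (lt_of_lt_of_le one_pos (l1 n)))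
  have h0 : Tendsto h atTop (𝓝 0) :=
    (tendsto_inv_atTop_zero.comp (Real.tendsto_sqrt_atTop.comp ll)).congr fun n => (hh n).symm
  have h2 : ∀ n, h n ^ 2 * l n = 1 := fun n => by
    have p : 0 < l n := lt_of_lt_of_le one_pos (l1 n)
    rw [hh, inv_pow, Real.sq_sqrt p.le, inv_mul_cancel₀ p.ne']
  obtain ⟨w, hw⟩ : ∃ w : ℕ → ℂ → ℝ, w = fun n => u (n + N0) := ⟨_, rfl⟩
  have sw : ∀ n, ContDiffOn ℝ ∞ (w n) Ω := fun n => by rw [hw]; exact hu _
  have ew : ∀ n, ∀ z ∈ Ω, h n ^ 2 * lapl (w n) z = -(ρ z * w n z) := by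
    intro n z hz
    have e1 := he (n + N0) z hz
    rw [← hl] at e1
    have e2 : lapl (w n) z = - (l n * (ρ z * w n z)) := by
      rw [hw]; show lapl (u (n + N0)) z = - (l n * (ρ z * u (n + N0) z)); linarith
    rw [e2]
    have := h2 n
    linear_combination (-(ρ z * w n z)) * this
  have lbw : LB Ω 2 (cx w) := by
    refine ⟨fun n => Complex.ofRealCLM.contDiff.comp_contDiffOn (sw n), fun K hK hKB => ?_⟩
    obtain ⟨C, hC⟩ := hL K hK hKB
    refine ⟨C, ?_⟩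
    have h3 := (tendsto_add_atTop_nat N0).eventually hC
    refine h3.mono fun n hn => ?_
    simp only [cx, Complex.norm_real, Real.norm_eq_abs, sq_abs, hw]
    exact hn
  have MKw : MK2 Ω h 3 (cx w) := by
    refine mk_sol hΩ hp h0 lbw (ρ := fun z => (ρ z : ℂ))
      (Complex.ofRealCLM.contDiff.comp_contDiffOn hρ) (c := fun _ => 1) (M := 1)
      (Eventually.of_forall fun n => by norm_num) ?_ 3
    intro n z hz
    have e1 : lap (cx w n) z = ((lapl (w n) z : ℝ) : ℂ) := lap_re hΩ (sw n) hz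
    simp only [Pool.Agent.TH294.RS.hL]
    rw [e1]
    have e2 := ew n z hz
    have e3 : ((h n ^ 2 * lapl (w n) z : ℝ) : ℂ) = ((-(ρ z * w n z) : ℝ) : ℂ) := by rw [e2]
    push_cast at e3
    simp only [cx]
    push_cast
    rw [e3]; ring
  obtain ⟨C, C0, hC⟩ := main_ineq hΩ hp h0 sw MKw (⟨hφ.1, hφ.2.1, hφ.2.2.1⟩ : TF Ω φ) hφ.2.2.2
    hρ.continuousOn (fun n z hz => by
      rw [rdd hΩ sw 1 n hz, rdd hΩ sw I n hz, ← mul_add]
      exact ew n z hz)
  refine ⟨C, fun ν hν hlim => ?_⟩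
  obtain ⟨σ, hσ, hg⟩ := hlim
  -- the basic estimate
  have base : ∀ (K : Set ℝ) (e : ℝ), IsCompact K → 0 < e → volume K < ENNReal.ofReal (e ^ 6) →
      ∫ x in K, |x| ∂ν ≤ C * e := by
    intro K e hK he0 hKe
    obtain ⟨U, hKU, hU, hUe⟩ := K.exists_isOpen_lt_of_lt _ hKe
    obtain ⟨g, sg, cg, tg, gK, g0, g1⟩ := exists_cutR hU hK hKU
    have gint : Integrable g := sg.continuous.integrable_of_hasCompactSupport cg
    have Ufin : volume U ≠ ⊤ := ne_top_of_lt hUe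
    have gle : ∫ x, |g x| ≤ e ^ 6 := by
      have e1 : ∫ x, |g x| = ∫ x in U, |g x| := by
        refine (setIntegral_eq_integral_of_forall_compl_eq_zero fun x hx => ?_).symm
        rw [image_eq_zero_of_notMem_tsupport (fun h => hx (tg h)), abs_zero]
      rw [e1]
      have e2 : ∫ x in U, |g x| ≤ ∫ x in U, (1 : ℝ) := by
        refine setIntegral_mono_on gint.abs.integrableOn (integrableOn_const Ufin) hU.measurableSet
          fun x _ => ?_
        rw [abs_of_nonneg (g0 x)]; exact g1 x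
      refine e2.trans ?_
      rw [setIntegral_const, smul_eq_mul, mul_one]
      exact ENNReal.toReal_le_of_le_ofReal (by positivity) hUe.le
    have hPr : ∀ x, |Pr g x| ≤ e ^ 6 := by
      intro x
      have h1 := intervalIntegral.norm_integral_le_integral_norm_uIoc (f := g)
        (a := 0) (b := x) (μ := volume)
      refine h1.trans (le_trans ?_ gle)
      exact setIntegral_le_integral gint.abs (ae_of_all _ fun x => abs_nonneg _)
    have cG : Continuous (fun x => g x * |x|) := sg.continuous.mul continuous_abs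
    have sG : HasCompactSupport (fun x => g x * |x|) := cg.mul_right
    have lim := hg _ cG sG
    have ev : ∀ᶠ n in atTop, ∫ z, φ z * (g (u (σ n) z) * |u (σ n) z| * ρ z) ≤ C * e := by
      have e1 : ∀ᶠ n in atTop, ∫ z, φ z * (g (w n z) * |ρ z * w n z|) ≤ e * C :=
        hC.mono fun n hn => hn g e sg g0 g1 he0 hPr
      have e2 : ∀ᶠ m in atTop, ∫ z, φ z * (g (u m z) * |ρ z * u m z|) ≤ e * C := by
        rw [← Filter.map_add_atTop_eq_nat N0, eventually_map]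
        refine e1.mono fun n hn => ?_
        rw [hw] at hn; exact hn
      refine (hσ.tendsto_atTop.eventually e2).mono fun n hn => ?_
      have e3 : ∫ z, φ z * (g (u (σ n) z) * |u (σ n) z| * ρ z) =
          ∫ z, φ z * (g (u (σ n) z) * |ρ z * u (σ n) z|) := by
        congr 1; funext z
        by_cases hz : z ∈ Ω
        · rw [abs_mul, abs_of_pos (hρ0 z hz)]; ring
        · have : φ z = 0 := image_eq_zero_of_notMem_tsupport fun h => hz (hφ.2.2.1 h)
          rw [this]; simp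
      rw [e3, mul_comm C e]; exact hn
    have fin : ∫ x, g x * |x| ∂ν ≤ C * e := le_of_tendsto lim ev
    refine le_trans ?_ fin
    have i1 : Integrable (fun x => g x * |x|) ν := cG.integrable_of_hasCompactSupport sG
    have e4 : ∫ x in K, |x| ∂ν = ∫ x in K, g x * |x| ∂ν :=
      setIntegral_congr_fun hK.measurableSet fun x hx => by
        show |x| = g x * |x|
        rw [gK x hx, one_mul]
    rw [e4]
    exact setIntegral_le_integral i1 (ae_of_all _ fun x => mul_nonneg (g0 x) (abs_nonneg x))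
  refine ⟨base, ?_⟩
  intro s hs
  obtain ⟨t, hst, tm, t0⟩ := exists_measurable_superset_of_null hs
  rw [Measure.restrict_apply₀' (measurableSet_singleton (0 : ℝ)).compl.nullMeasurableSet]
  have tk : ∀ k : ℕ, ν (t ∩ {x | 1 / ((k : ℝ) + 1) ≤ |x|}) = 0 := by
    intro k
    by_contra hne
    have mt : MeasurableSet (t ∩ {x | 1 / ((k : ℝ) + 1) ≤ |x|}) :=
      tm.inter (measurableSet_le measurable_const continuous_abs.measurable)
    obtain ⟨K, hKt, hK, hKpos⟩ := mt.exists_lt_isCompact (pos_iff_ne_zero.2 hne)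
    have K0 : volume K = 0 := measure_mono_null (hKt.trans Set.inter_subset_left) t0
    have Kr : 0 < (ν K).toReal := ENNReal.toReal_pos hKpos.ne' (measure_ne_top ν K)
    have low : 1 / ((k : ℝ) + 1) * (ν K).toReal ≤ ∫ x in K, |x| ∂ν := by
      have e1 : ∫ _ in K, (1 / ((k : ℝ) + 1)) ∂ν = 1 / ((k : ℝ) + 1) * (ν K).toReal := by
        rw [setIntegral_const, smul_eq_mul, mul_comm]; rfl
      rw [← e1]
      refine setIntegral_mono_on (integrableOn_const (measure_ne_top ν K))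
        (continuous_abs.continuousOn.integrableOn_compact hK) hK.measurableSet fun x hx => ?_
      exact (hKt hx).2
    have kp : 0 < 1 / ((k : ℝ) + 1) * (ν K).toReal := by positivity
    obtain ⟨e, he0, heC⟩ : ∃ e : ℝ, 0 < e ∧ C * e < 1 / ((k : ℝ) + 1) * (ν K).toReal := by
      refine ⟨(1 / ((k : ℝ) + 1) * (ν K).toReal) / (C + 1) / 2, by positivity, ?_⟩
      have : C * ((1 / ((k : ℝ) + 1) * (ν K).toReal) / (C + 1) / 2) =
          (C / (C + 1)) * ((1 / ((k : ℝ) + 1) * (ν K).toReal) / 2) := by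
        field_simp
      rw [this]
      have h3 : C / (C + 1) ≤ 1 := by rw [div_le_one (by positivity)]; linarith
      nlinarith
    have := base K e hK he0 (by rw [K0]; exact ENNReal.ofReal_pos.2 (by positivity))
    linarith
  refine measure_mono_null (t := ⋃ k : ℕ, t ∩ {x | 1 / ((k : ℝ) + 1) ≤ |x|}) ?_
    (measure_iUnion_null tk)
  intro x hx
  have x0 : x ≠ 0 := hx.2
  obtain ⟨k, hk⟩ := exists_nat_one_div_lt (abs_pos.2 x0)
  exact Set.mem_iUnion.2 ⟨k, hst hx.1, hk.le⟩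

end

end Pool.Agent.Results.MP_a52643_an.AbsoluteContinuity
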