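import Pool.Agent.TH294.RG.Ms7
import Pool.Agent.TH294.RG.Pl11

/-!
# The fourth moment and the mass at all scales above the wavelength (MP_a52643_an)

A Riemannian surface in isothermal coordinates: an open set `Ω ⊆ ℂ` with the metric `ρ |dz|²`,
area measure `ρ dx dy`. `dx f z`, `dy f z` are the partial derivatives `fderiv ℝ f z 1`,
`fderiv ℝ f z I`, and `lap f = dx (dx f) + dy (dy f)`; `TF Ω φ` says that `φ : ℂ → ℝ` is smooth
with compact support contained in `Ω`.

In the metric rescaled by `λ` the operator `D = (λ ρ)^{-1/2} (∂x - i ∂y)` is the derivative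
`∂_1 - i ∂_2` in the conformal orthonormal frame; at a unit momentum of direction `α` its symbol is
`sym α = i exp(-iα)`. The hypothesis `hsc` says that `u n` has the semiclassical measure
`m(z) ν_z(dα) dvol(z)` on the unit cosphere bundle over `Ω`. Quantum ergodicity is the case `m = 1`,
`ν_z` uniform. The hypothesis `hpar` says that `ν_z` has no atoms modulo `π`.

The theorem bounds the fourth moment from below by its Gaussian value plus `3/2` of the mean square
deviation of the local mass `mean r (u n)²` from `m`, at every scale `r` between a large multiple of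
the wavelength and a small constant.

Proof idea: the second average `G` of `u² - m` at the scale `r` varies slowly compared with `u`, and
the correlation of `u² - m` with a slowly varying function is controlled by the structure theorem
for the fourth order moments: `W_k W_{-k}` and `(-1)^k u²` have the same correlation with `G`, while
the second moment of the averages of `(-1)^k W_k W_{-k} - m` over `k` is at most `2/3` of the excess
of the fourth moment.
-/

set_option autoImplicit false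
open MeasureTheory Filter Topology Complex ProbabilityTheory
open scoped ContDiff ENNReal

namespace Pool.Agent.Results.MP_a52643_an.MesoscopicMass

open Pool.Agent.W745.RW

/-- the normalised frame derivative `(λ ρ)^{-1/2} (∂x - i ∂y)` -/
noncomputable def D (ρ : ℂ → ℝ) (lam : ℝ) (f : ℂ → ℂ) (z : ℂ) : ℂ :=
  ((1 / √(lam * ρ z) : ℝ) : ℂ) * (dx f z - I * dy f z)

/-- the symbol of `D` at a unit momentum of direction `α` -/
noncomputable def sym (α : ℝ) : ℂ := I * Complex.exp (-(α : ℂ) * I)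

/-- the probability that two independent directions of law `ν` are parallel (equal or opposite) -/
noncomputable def parallel (ν : Measure ℝ) : ℝ :=
  (ν.prod ν).real {p | Real.sin (p.1 - p.2) = 0}

/-- the mean of `f` over the disc with centre `z` and radius `r` -/
noncomputable def mean (r : ℝ) (f : ℂ → ℝ) (z : ℂ) : ℝ :=
  1 / (Real.pi * r ^ 2) * ∫ w in Metric.ball z r, f w

/-- **Result.** Let `u n` be real solutions of `Δu + λ_n u = 0` for the metric `ρ |dz|²` on `Ω`
(that is `lap u + λ_n ρ u = 0`), `λ_n → ∞`, with semiclassical measure `m(z) ν_z dvol(z)`, `m`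
smooth and `ν_z` without atoms modulo `π`. Let `K ⊆ Ω` be compact, `φ ≥ 0` a test function supported
in its interior and `ε > 0`. There are `R₀, r₀ > 0` such that for all large `n` and all `r` between
`R₀ / √λ_n` and `r₀`

`3 ∫ φ m² dvol + (3/2) ∫ φ (mean r (u²) - m)² dvol ≤ ∫ φ u⁴ dvol + ε (1 + ∫_K u⁴)`. -/
theorem result (Ω : Set ℂ) (hΩ : IsOpen Ω) (ρ : ℂ → ℝ) (hρ : ContDiffOn ℝ ∞ ρ Ω)
    (hρ0 : ∀ z ∈ Ω, 0 < ρ z) (lam : ℕ → ℝ) (hpos : ∀ n, 0 < lam n)
    (hlam : Tendsto lam atTop atTop) (u : ℕ → ℂ → ℝ) (hu : ∀ n, ContDiffOn ℝ ∞ (u n) Ω)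
    (heq : ∀ n, ∀ z ∈ Ω, lap (u n) z + lam n * (ρ z * u n z) = 0)
    (m : ℂ → ℝ) (hm : ContDiffOn ℝ ∞ m Ω) (ν : Kernel ℂ ℝ) [IsMarkovKernel ν]
    (hsc : ∀ φ, TF Ω φ → ∀ k : ℕ, Tendsto (fun n => ∫ z, ((φ z * ρ z : ℝ) : ℂ) *
      ((u n z : ℂ) * (D ρ (lam n))^[k] (fun w => (u n w : ℂ)) z)) atTop
      (𝓝 (∫ z, ((φ z * ρ z : ℝ) : ℂ) * ((m z : ℂ) * ∫ α, sym α ^ k ∂(ν z)))))
    (hpar : ∀ᵐ z ∂(volume.restrict Ω), parallel (ν z) = 0)
    (K : Set ℂ) (hK : IsCompact K) (hKΩ : K ⊆ Ω) (φ : ℂ → ℝ) (hφ : TF (interior K) φ)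
    (hφ0 : ∀ z, 0 ≤ φ z) (ε : ℝ) (hε : 0 < ε) :
    ∃ R₀ r₀ : ℝ, 0 < R₀ ∧ 0 < r₀ ∧ ∀ᶠ n in atTop, ∀ r : ℝ, R₀ / √(lam n) ≤ r → r ≤ r₀ →
      3 * (∫ z, φ z * ρ z * m z ^ 2) +
        3 / 2 * (∫ z, φ z * ρ z * (mean r (fun w => u n w ^ 2) z - m z) ^ 2) ≤
      (∫ z, φ z * ρ z * u n z ^ 4) + ε * (1 + ∫ z in K, u n z ^ 4) := by
  have H := Pool.Agent.TH294.RG.rawG_met (M := Pool.Agent.TH294.RG.MM m
    Pool.Agent.TH294.RG.ea ν) hΩ hpos hlam hρ hρ0 hu heq hsc
  have hp : ∀ᵐ z ∂(volume.restrict Ω), Pool.Agent.TH294.RG.par Pool.Agent.TH294.RG.ea (ν z) = 0 := by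
    filter_upwards [hpar] with z hz
    simp only [Pool.Agent.TH294.RG.par, Pool.Agent.TH294.RG.ea_par]
    exact hz
  have hm2 : ∀ K' : Set ℂ, IsCompact K' → K' ⊆ Ω → MemLp m 2 (volume.restrict K') := by
    intro K' hK' hK'Ω
    have cm : ContinuousOn m K' := hm.continuousOn.mono hK'Ω
    obtain ⟨C, hC⟩ := hK'.exists_bound_of_continuousOn cm
    have : IsFiniteMeasure (volume.restrict K') := ⟨by simpa using hK'.measure_lt_top⟩
    exact MemLp.of_bound (cm.aestronglyMeasurable hK'.measurableSet) C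
      ((ae_restrict_mem hK'.measurableSet).mono hC)
  have hKi : interior K ⊆ Ω := interior_subset.trans hKΩ
  have hφ' : TF (interior K) (fun z => φ z * ρ z) :=
    Pool.Agent.TH294.RS.TF.mulc isOpen_interior hφ (hρ.mono hKi)
  have hφ0' : ∀ z, 0 ≤ φ z * ρ z := by
    intro z
    by_cases hz : z ∈ interior K
    · exact mul_nonneg (hφ0 z) (hρ0 z (hKi hz)).le
    · rw [Pool.Agent.TH294.RS.TF.zero hφ hz, zero_mul]
  obtain ⟨R₀, r₀, hR, hr, key⟩ := Pool.Agent.TH294.RG.meso_unif hm2 hm hp H hK hKΩ hφ' hφ0'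
    (show 0 < 2 / 3 * ε by positivity)
  refine ⟨R₀, r₀, hR, hr, key.mono fun n hn r h1 h2 => ?_⟩
  have hs : 0 < √(lam n) := Real.sqrt_pos.2 (hpos n)
  have r0 : 0 < r := lt_of_lt_of_le (div_pos hR hs) h1
  have h3 := hn r (by rw [mul_one_div]; exact h1) h2
  have e1 : ∀ z, mean r (fun w => u n w ^ 2) z =
      ∫ w, u n (z + r • w) ^ 2 ∂Pool.Agent.TH294.RG.dm := fun z =>
    Pool.Agent.TH294.RG.mean_dm (fun w => u n w ^ 2) z r0
  simp only [e1]
  linarith

end Pool.Agent.Results.MP_a52643_an.MesoscopicMass
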