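import Pool.Agent.TH294.RG.Fin

/-!
# The fourth moment of eigenfunctions on surfaces and their semiclassical measure (MP_a52643_an)

A Riemannian surface in isothermal coordinates: an open set `Ω ⊆ ℂ` with the metric `ρ |dz|²`,
area measure `ρ dx dy`. `dx f z`, `dy f z` are the partial derivatives `fderiv ℝ f z 1`,
`fderiv ℝ f z I`, and `lap f = dx (dx f) + dy (dy f)`; `TF Ω φ` says that `φ : ℂ → ℝ` is smooth
with compact support contained in `Ω`.

The operator `D = (λ ρ)^{-1/2} (∂x - i ∂y)` has, at a unit momentum of direction `α`, the symbol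
`sym α = i exp(-iα)`. The hypothesis `hsc` says that `u n` has the semiclassical measure
`m(z) ν_z(dα) dvol(z)` on the unit cosphere bundle over `Ω`: for every test function `φ` and every
`k ≥ 0`, `∫ φ u (D^k u) dvol → ∫ φ m (∫ (sym α)^k dν_z(α)) dvol`. Here `m` is the density of the
limit of `u² dvol` and `ν_z`, a probability measure, is the law of the direction of the momentum
at `z`.
-/

set_option autoImplicit false
open MeasureTheory Filter Topology Complex ProbabilityTheory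
open scoped ContDiff ENNReal

namespace Pool.Agent.Results.MP_a52643_an.SemiclassicalFourthMoment

open Pool.Agent.W745.RW

/-- the normalised frame derivative `(λ ρ)^{-1/2} (∂x - i ∂y)` -/
noncomputable def D (ρ : ℂ → ℝ) (lam : ℝ) (f : ℂ → ℂ) (z : ℂ) : ℂ :=
  ((1 / √(lam * ρ z) : ℝ) : ℂ) * (dx f z - I * dy f z)

/-- the symbol of `D` at a unit momentum of direction `α` -/
noncomputable def sym (α : ℝ) : ℂ := I * Complex.exp (-(α : ℂ) * I)

/-- the probability that two independent directions of law `ν` are parallel (equal or opposite) -/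
noncomputable def parallel (ν : Measure ℝ) : ℝ :=
  (ν.prod ν).real {p | Real.sin (p.1 - p.2) = 0}

/-- **Result.** Let `u n` be real solutions of `Δu + λ_n u = 0` for the metric `ρ |dz|²` on `Ω`
(that is `lap u + λ_n ρ u = 0`), `λ_n → ∞`, with semiclassical measure `m(z) ν_z dvol(z)`, where
`m` is locally square integrable. Then for every open `U ⊆ Ω`,
`liminf ∫_U u⁴ dvol ≥ ∫_U m² (3 - (3/2) parallel(ν_z)) dvol`. -/
theorem result (Ω : Set ℂ) (hΩ : IsOpen Ω) (ρ : ℂ → ℝ) (hρ : ContDiffOn ℝ ∞ ρ Ω)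
    (hρ0 : ∀ z ∈ Ω, 0 < ρ z) (lam : ℕ → ℝ) (hpos : ∀ n, 0 < lam n)
    (hlam : Tendsto lam atTop atTop) (u : ℕ → ℂ → ℝ) (hu : ∀ n, ContDiffOn ℝ ∞ (u n) Ω)
    (heq : ∀ n, ∀ z ∈ Ω, lap (u n) z + lam n * (ρ z * u n z) = 0)
    (m : ℂ → ℝ) (hm : ∀ K : Set ℂ, IsCompact K → K ⊆ Ω → MemLp m 2 (volume.restrict K))
    (ν : Kernel ℂ ℝ) [IsMarkovKernel ν]
    (hsc : ∀ φ, TF Ω φ → ∀ k : ℕ, Tendsto (fun n => ∫ z, ((φ z * ρ z : ℝ) : ℂ) *
      ((u n z : ℂ) * (D ρ (lam n))^[k] (fun w => (u n w : ℂ)) z)) atTop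
      (𝓝 (∫ z, ((φ z * ρ z : ℝ) : ℂ) * ((m z : ℂ) * ∫ α, sym α ^ k ∂(ν z)))))
    (U : Set ℂ) (hU : IsOpen U) (hUΩ : U ⊆ Ω) :
    ∫⁻ z in U, ENNReal.ofReal (ρ z * (m z ^ 2 * (3 - 3 / 2 * parallel (ν z)))) ≤
      liminf (fun n => ∫⁻ z in U, ENNReal.ofReal (ρ z * u n z ^ 4)) atTop := by
  have H := Pool.Agent.TH294.RG.rawG_met (M := Pool.Agent.TH294.RG.MM m
    Pool.Agent.TH294.RG.ea ν) hΩ hpos hlam hρ hρ0 hu heq hsc
  have key := Pool.Agent.TH294.RG.RawG.fin hΩ Pool.Agent.TH294.RG.ea_meas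
    Pool.Agent.TH294.RG.ea_norm hm H hU hUΩ (hρ.mono hUΩ) fun z hz => (hρ0 z (hUΩ hz)).le
  refine le_trans (le_of_eq ?_) key
  refine lintegral_congr fun z => ?_
  simp only [Pool.Agent.TH294.RG.GD, Pool.Agent.TH294.RG.par, Pool.Agent.TH294.RG.ea_par, parallel]

end Pool.Agent.Results.MP_a52643_an.SemiclassicalFourthMoment
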