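import Pool.Agent.TH294.RG.Th3

/-!
# Third moments of Laplace eigenfunctions on surfaces (MP_a52643_an)

A Riemannian surface in isothermal coordinates: an open set `Ω ⊆ ℂ` with the metric `ρ |dz|²`,
area measure `ρ dx dy`. `dx f z`, `dy f z` are the partial derivatives `fderiv ℝ f z 1`,
`fderiv ℝ f z I`, and `lap f = dx (dx f) + dy (dy f)`; `TF Ω φ` says that `φ : ℂ → ℝ` is smooth
with compact support contained in `Ω`.

In the metric rescaled by `λ` the operator `D = (λ ρ)^{-1/2} (∂x - i ∂y)` is the derivative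
`∂_1 - i ∂_2` in the conformal orthonormal frame; at a unit momentum of direction `α` its symbol is
`sym α = i exp(-iα)`. The functions `W k` (`k ∈ ℤ`) are the local field `u` with the Fourier
multiplier `(sym α)^k`; in particular `W 0 = u`. The hypothesis `hsc` says that `u n` has the
semiclassical measure `m(z) ν_z(dα) dvol(z)` on the unit cosphere bundle over `Ω`. Quantum
ergodicity is the case `m = 1`, `ν_z` uniform. The hypothesis `hpar` says that `ν_z` has no atoms
modulo `π`. For the Gaussian random wave all third moments are `0`.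

Proof idea: the expressions `∑ c_k W (i + 2 k) W (j - 2 k)` whose symbol is concentrated on pairs of
momenta with sum on the unit circle have the same correlation with `W l` as `W i W j`, while
their second moment, which the fourth order structure theorem computes, is as small as we please.
-/

set_option autoImplicit false
open MeasureTheory Filter Topology Complex ProbabilityTheory
open scoped ContDiff ENNReal

namespace Pool.Agent.Results.MP_a52643_an.ThirdMoments

open Pool.Agent.W745.RW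

/-- the normalised frame derivative `(λ ρ)^{-1/2} (∂x - i ∂y)` -/
noncomputable def D (ρ : ℂ → ℝ) (lam : ℝ) (f : ℂ → ℂ) (z : ℂ) : ℂ :=
  ((1 / √(lam * ρ z) : ℝ) : ℂ) * (dx f z - I * dy f z)

/-- the symbol of `D` at a unit momentum of direction `α` -/
noncomputable def sym (α : ℝ) : ℂ := I * Complex.exp (-(α : ℂ) * I)

/-- the probability that two independent directions of law `ν` are parallel (equal or opposite) -/
noncomputable def parallel (ν : Measure ℝ) : ℝ :=
  (ν.prod ν).real {p | Real.sin (p.1 - p.2) = 0}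

/-- `W k = D^k u` for `k ≥ 0` and `W k = (-1)^k conj (D^|k| u)` for `k < 0` -/
noncomputable def W (ρ : ℂ → ℝ) (lam : ℝ) (u : ℂ → ℝ) : ℤ → ℂ → ℂ
  | Int.ofNat k => (D ρ lam)^[k] (fun w => (u w : ℂ))
  | Int.negSucc k => fun z => (-1) ^ (k + 1) *
      (starRingEnd ℂ) ((D ρ lam)^[k + 1] (fun w => (u w : ℂ)) z)

/-- **Result.** Let `u n` be real solutions of `Δu + λ_n u = 0` for the metric `ρ |dz|²` on `Ω`
(that is `lap u + λ_n ρ u = 0`), `λ_n → ∞`, with semiclassical measure `m(z) ν_z dvol(z)`, `m`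
locally square integrable and `ν_z` without atoms modulo `π`. Let `K ⊆ Ω` be compact and `φ` a test
function supported in its interior. Then all third order moments
`∫ φ W_i W_j W_k dvol` (in particular `∫ φ u³ dvol`) are `o((1 + ∫_K u⁴)^{1/2})`. -/
theorem result (Ω : Set ℂ) (hΩ : IsOpen Ω) (ρ : ℂ → ℝ) (hρ : ContDiffOn ℝ ∞ ρ Ω)
    (hρ0 : ∀ z ∈ Ω, 0 < ρ z) (lam : ℕ → ℝ) (hpos : ∀ n, 0 < lam n)
    (hlam : Tendsto lam atTop atTop) (u : ℕ → ℂ → ℝ) (hu : ∀ n, ContDiffOn ℝ ∞ (u n) Ω)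
    (heq : ∀ n, ∀ z ∈ Ω, lap (u n) z + lam n * (ρ z * u n z) = 0)
    (m : ℂ → ℝ) (hm : ∀ K : Set ℂ, IsCompact K → K ⊆ Ω → MemLp m 2 (volume.restrict K))
    (ν : Kernel ℂ ℝ) [IsMarkovKernel ν]
    (hsc : ∀ φ, TF Ω φ → ∀ k : ℕ, Tendsto (fun n => ∫ z, ((φ z * ρ z : ℝ) : ℂ) *
      ((u n z : ℂ) * (D ρ (lam n))^[k] (fun w => (u n w : ℂ)) z)) atTop
      (𝓝 (∫ z, ((φ z * ρ z : ℝ) : ℂ) * ((m z : ℂ) * ∫ α, sym α ^ k ∂(ν z)))))
    (hpar : ∀ᵐ z ∂(volume.restrict Ω), parallel (ν z) = 0)
    (K : Set ℂ) (hK : IsCompact K) (hKΩ : K ⊆ Ω) (φ : ℂ → ℝ) (hφ : TF (interior K) φ)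
    (i j k : ℤ) :
    Tendsto (fun n => (∫ z, ((φ z * ρ z : ℝ) : ℂ) * (W ρ (lam n) (u n) i z *
      W ρ (lam n) (u n) j z * W ρ (lam n) (u n) k z)) /
        ((√(1 + ∫ z in K, u n z ^ 4) : ℝ) : ℂ)) atTop (𝓝 0) := by
  have hW : ∀ n k, W ρ (lam n) (u n) k = Pool.Agent.TH294.RS.WW ρ (lam n) (u n) k := by
    intro n k
    cases k with
    | ofNat k => rfl
    | negSucc k => rfl
  have H := Pool.Agent.TH294.RG.rawG_met (M := Pool.Agent.TH294.RG.MM m
    Pool.Agent.TH294.RG.ea ν) hΩ hpos hlam hρ hρ0 hu heq hsc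
  have hp : ∀ᵐ z ∂(volume.restrict Ω), Pool.Agent.TH294.RG.par Pool.Agent.TH294.RG.ea (ν z) = 0 := by
    filter_upwards [hpar] with z hz
    simp only [Pool.Agent.TH294.RG.par, Pool.Agent.TH294.RG.ea_par]
    exact hz
  have hφ' : TF (interior K) (fun z => φ z * ρ z) :=
    Pool.Agent.TH294.RS.TF.mulc isOpen_interior hφ (hρ.mono (interior_subset.trans hKΩ))
  have key := Pool.Agent.TH294.RG.third_lim hm hp H hK hKΩ hφ' i j k
  refine key.congr fun n => ?_
  rw [div_eq_inv_mul]
  simp only [hW, Pool.Agent.TH294.RS.WW_eq ρ hpos u]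

end Pool.Agent.Results.MP_a52643_an.ThirdMoments
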